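import Pool.Agent.Helper92.RK.Defs

/-!
# RK, part GEN
-/

set_option autoImplicit false

namespace Pool.Agent.Helper57.RK.GEN

open Finset Pool.Agent.Helper92.RK

theorem exp_le (t : ℝ) (h0 : 0 ≤ t) (h1 : t ≤ 1 / 2) : Real.exp (-(2 * t)) ≤ 1 - t := by
  have h2 := Real.quadratic_le_exp_of_nonneg (x := 2 * t) (by linarith)
  have h3 : 1 ≤ (1 - t) * Real.exp (2 * t) := by
    have h4 : (1 - t) * (1 + 2 * t + (2 * t) ^ 2 / 2) ≤ (1 - t) * Real.exp (2 * t) :=
      mul_le_mul_of_nonneg_left h2 (by linarith)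
    have h5 : 1 ≤ (1 - t) * (1 + 2 * t + (2 * t) ^ 2 / 2) := by
      nlinarith [mul_nonneg h0 h0, mul_nonneg h0 (mul_nonneg h0 h0),
        mul_nonneg h0 (sub_nonneg.2 h1), mul_nonneg (mul_nonneg h0 h0) (sub_nonneg.2 h1)]
    linarith
  rw [Real.exp_neg, inv_le_iff_one_le_mul₀ (Real.exp_pos _)]
  exact h3

theorem prod_ge {ι : Type} (s : Finset ι) (w : ι → ℝ) (h0 : ∀ b ∈ s, 0 ≤ w b)
    (h1 : ∀ b ∈ s, w b ≤ 1) : 1 - ∑ b ∈ s, w b ≤ ∏ b ∈ s, (1 - w b) := by
  classical
  induction s using Finset.induction_on with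
  | empty => simp
  | insert a s ha ih =>
    rw [sum_insert ha, prod_insert ha]
    have h2 := ih (fun b hb => h0 b (mem_insert_of_mem hb)) (fun b hb => h1 b (mem_insert_of_mem hb))
    have h3 := h0 a (mem_insert_self a s)
    have h4 := h1 a (mem_insert_self a s)
    have h5 : 0 ≤ ∑ b ∈ s, w b := sum_nonneg fun b hb => h0 b (mem_insert_of_mem hb)
    have h6 : (1 - w a) * (1 - ∑ b ∈ s, w b) ≤ (1 - w a) * ∏ b ∈ s, (1 - w b) :=
      mul_le_mul_of_nonneg_left h2 (by linarith)
    nlinarith [mul_nonneg h3 h5]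

theorem self_mul_anti (h m : ℕ) (h1 : 1 ≤ h) (hm : h ≤ m) :
    (m : ℝ) * (1 / 2) ^ m ≤ h * (1 / 2) ^ h := by
  induction m, hm using Nat.le_induction with
  | base => exact le_rfl
  | succ m hm ih =>
    refine le_trans ?_ ih
    rw [pow_succ]
    push_cast
    have h2 : (1 : ℝ) ≤ m := by exact_mod_cast h1.trans hm
    have h3 : (0 : ℝ) < (1 / 2) ^ m := by positivity
    nlinarith

theorem pr_union {n : ℕ} {ι : Type} (E E' : (Fin n → Bool) → Prop) (H : Finset ι)
    (P : ι → (Fin n → Bool) → Prop) (h : ∀ x, E x → E' x ∨ ∃ b ∈ H, P b x) :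
    pr E ≤ pr E' + ∑ b ∈ H, pr (P b) := by
  classical
  unfold pr
  rw [← sum_div, ← add_div]
  apply div_le_div_of_nonneg_right _ (by positivity)
  have h1 : univ.filter E ⊆ univ.filter E' ∪ H.biUnion (fun b => univ.filter (P b)) := by
    intro x hx
    rw [mem_filter] at hx
    rw [mem_union, mem_biUnion]
    rcases h x hx.2 with h2 | ⟨b, hb, h2⟩
    · exact Or.inl (mem_filter.2 ⟨mem_univ _, h2⟩)
    · exact Or.inr ⟨b, hb, mem_filter.2 ⟨mem_univ _, h2⟩⟩
  have h2 : (univ.filter E).card ≤ (univ.filter E').card + ∑ b ∈ H, (univ.filter (P b)).card :=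
    (card_le_card h1).trans ((card_union_le _ _).trans (add_le_add le_rfl card_biUnion_le))
  exact_mod_cast h2

theorem main (hLLL : S_LLL) (hSAT : S_SAT) : S_GEN := by
  classical
  intro k M hM
  have hlim : Filter.Tendsto (fun h : ℕ => 16 * k * M * ((h : ℝ) * (1 / 2) ^ h)) Filter.atTop
      (nhds 0) := by
    have := (tendsto_self_mul_const_pow_of_lt_one (r := (1 / 2 : ℝ)) (by norm_num)
      (by norm_num)).const_mul (16 * (k : ℝ) * M)
    simpa using this
  have hev : ∀ᶠ h : ℕ in Filter.atTop,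
      16 * k * M * ((h : ℝ) * (1 / 2) ^ h) < Real.exp (-(4 * M)) / 2 :=
    hlim.eventually (gt_mem_nhds (by positivity))
  obtain ⟨h, hh, hh2⟩ := (hev.and (Filter.eventually_ge_atTop 2)).exists
  refine ⟨h, ?_⟩
  intro n ι s R hcon hrd hlen hwt
  set p : ι → ℝ := fun b => (1 / 2 : ℝ) ^ (R b).card with hp
  have hp0 : ∀ b, 0 < p b := fun b => by simp only [hp]; positivity
  set nb : ι → Finset ι := fun b => s.filter fun c => c ≠ b ∧ ¬ Disjoint (vr (R b)) (vr (R c))
    with hnb
  set lam : ι → ℝ := fun b => ∑ c ∈ nb b, p c with hlam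
  set q : ι → ι → ℝ := fun b c =>
    if ¬ Disjoint (vr (R b)) (vr (R c)) ∧ (R c).card ≤ (R b).card then p b * p c else 0 with hq
  have hq0 : ∀ b c, 0 ≤ q b c := by
    intro b c
    simp only [hq]
    split_ifs
    · exact (mul_pos (hp0 b) (hp0 c)).le
    · exact le_rfl
  -- the sum of `q`
  have hqs : ∀ c ∈ s, ∑ b ∈ s, q b c ≤ k * (h * (1 / 2) ^ h) * p c := by
    intro c hc
    have h1 : ∑ b ∈ s, q b c = ∑ b ∈ s.filter (fun b => ¬ Disjoint (vr (R b)) (vr (R c)) ∧
        (R c).card ≤ (R b).card), p b * p c := by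
      simp only [hq]
      rw [sum_filter]
    rw [h1]
    have h2 : ∀ b ∈ s.filter (fun b => ¬ Disjoint (vr (R b)) (vr (R c)) ∧
        (R c).card ≤ (R b).card), p b * p c ≤ p c * p c := by
      intro b hb
      rw [mem_filter] at hb
      apply mul_le_mul_of_nonneg_right _ (hp0 c).le
      exact pow_le_pow_of_le_one (by norm_num) (by norm_num) hb.2.2
    refine (sum_le_card_nsmul _ _ _ h2).trans ?_
    rw [nsmul_eq_mul]
    have h3 : (s.filter (fun b => ¬ Disjoint (vr (R b)) (vr (R c)) ∧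
        (R c).card ≤ (R b).card)).card ≤ k * (R c).card := by
      have h4 : s.filter (fun b => ¬ Disjoint (vr (R b)) (vr (R c)) ∧
          (R c).card ≤ (R b).card) ⊆ (vr (R c)).biUnion fun i => s.filter fun b => i ∈ vr (R b) := by
        intro b hb
        rw [mem_filter, not_disjoint_iff] at hb
        obtain ⟨hb1, ⟨i, hi1, hi2⟩, -⟩ := hb
        rw [mem_biUnion]
        exact ⟨i, hi2, mem_filter.2 ⟨hb1, hi1⟩⟩
      refine (card_le_card h4).trans (card_biUnion_le.trans ?_)
      refine (sum_le_card_nsmul _ _ k fun i _ => ?_).trans ?_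
      · exact hrd i
      · rw [smul_eq_mul, mul_comm]
        exact Nat.mul_le_mul_left _ card_image_le
    have h5 : (((s.filter (fun b => ¬ Disjoint (vr (R b)) (vr (R c)) ∧
        (R c).card ≤ (R b).card)).card : ℕ) : ℝ) ≤ k * (R c).card := by exact_mod_cast h3
    calc _ ≤ ((k : ℝ) * (R c).card) * (p c * p c) :=
          mul_le_mul_of_nonneg_right h5 (mul_pos (hp0 c) (hp0 c)).le
      _ = k * ((R c).card * p c) * p c := by ring
      _ ≤ k * (h * (1 / 2) ^ h) * p c := by
          apply mul_le_mul_of_nonneg_right _ (hp0 c).le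
          apply mul_le_mul_of_nonneg_left _ (Nat.cast_nonneg k)
          exact self_mul_anti h _ (by omega) (hlen c hc)
  have hps : ∑ b ∈ s, p b ≤ M := hwt
  have hh0 : (0 : ℝ) ≤ k * (h * (1 / 2) ^ h) := by positivity
  have hqt : ∑ c ∈ s, ∑ b ∈ s, q b c ≤ k * (h * (1 / 2) ^ h) * M := by
    refine (sum_le_sum hqs).trans ?_
    rw [← mul_sum]
    exact mul_le_mul_of_nonneg_left hps hh0
  have htot : ∑ b ∈ s, p b * lam b ≤ 2 * (k * (h * (1 / 2) ^ h) * M) := by
    have h1 : ∀ b ∈ s, p b * lam b ≤ ∑ c ∈ s, (q b c + q c b) := by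
      intro b _
      simp only [hlam, hnb]
      rw [mul_sum, sum_filter]
      apply sum_le_sum
      intro c _
      split_ifs with hc
      · rcases le_total (R c).card (R b).card with h2 | h2
        · have h3 : q b c = p b * p c := by
            simp only [hq]
            rw [if_pos ⟨hc.2, h2⟩]
          rw [h3]
          linarith [hq0 c b]
        · have h3 : q c b = p c * p b := by
            simp only [hq]
            rw [if_pos ⟨fun hd => hc.2 hd.symm, h2⟩]
          rw [h3]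
          linarith [hq0 b c, mul_comm (p b) (p c)]
      · exact add_nonneg (hq0 b c) (hq0 c b)
    refine (sum_le_sum h1).trans ?_
    have h2 : ∑ b ∈ s, ∑ c ∈ s, (q b c + q c b) =
        ∑ c ∈ s, ∑ b ∈ s, q b c + ∑ c ∈ s, ∑ b ∈ s, q b c := by
      have h3 : ∑ b ∈ s, ∑ c ∈ s, (q b c + q c b) =
          ∑ b ∈ s, ∑ c ∈ s, q b c + ∑ b ∈ s, ∑ c ∈ s, q c b := by
        rw [← sum_add_distrib]
        exact sum_congr rfl fun b _ => sum_add_distrib
      rw [h3, sum_comm (f := fun b c => q b c)]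
    rw [h2]
    linarith
  -- the exceptional members
  set H : Finset ι := s.filter fun b => 1 / 8 < lam b with hH
  have hlam0 : ∀ b, 0 ≤ lam b := fun b => sum_nonneg fun c _ => (hp0 c).le
  have hHw : ∑ b ∈ H, p b ≤ Real.exp (-(4 * M)) / 2 := by
    have h1 : ∑ b ∈ H, p b ≤ 8 * ∑ b ∈ H, p b * lam b := by
      rw [mul_sum]
      apply sum_le_sum
      intro b hb
      have h2 := (mem_filter.1 hb).2
      nlinarith [hp0 b]
    have h2 : ∑ b ∈ H, p b * lam b ≤ ∑ b ∈ s, p b * lam b :=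
      sum_le_sum_of_subset_of_nonneg (filter_subset _ _)
        fun b _ _ => mul_nonneg (hp0 b).le (hlam0 b)
    linarith
  -- the local lemma for the others
  have hsub : s \ H ⊆ s := sdiff_subset
  have hsmall : ∀ b ∈ s, p b ≤ 1 / 4 := by
    intro b hb
    have h1 : p b ≤ (1 / 2 : ℝ) ^ 2 :=
      pow_le_pow_of_le_one (by norm_num) (by norm_num) (hh2.trans (hlen b hb))
    linarith
  have hL := hLLL n ι (s \ H) R (fun b => 2 * p b) (fun b hb => hcon b (hsub hb))
    (fun b hb => ⟨by linarith [hp0 b], by linarith [hsmall b (hsub hb)]⟩) (fun b hb => by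
      have hb1 : b ∈ s := hsub hb
      have hb2 : lam b ≤ 1 / 8 := by
        by_contra h3
        exact (mem_sdiff.1 hb).2 (mem_filter.2 ⟨hb1, not_le.1 h3⟩)
      set F := (s \ H).filter (fun c => c ≠ b ∧ ¬ Disjoint (vr (R b)) (vr (R c))) with hF
      have h1 : ∑ c ∈ F, 2 * p c ≤ 1 / 4 := by
        rw [← mul_sum]
        have h2 : ∑ c ∈ F, p c ≤ lam b :=
          sum_le_sum_of_subset_of_nonneg (filter_subset_filter _ hsub) fun c _ _ => (hp0 c).le
        linarith
      have h2 := prod_ge F (fun c => 2 * p c) (fun c _ => by linarith [hp0 c])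
        (fun c hc => by linarith [hsmall c (hsub (mem_filter.1 hc).1)])
      show p b ≤ 2 * p b * ∏ c ∈ F, (1 - 2 * p c)
      nlinarith [hp0 b])
  have hE : Real.exp (-(4 * M)) ≤ pr (Avoid (s \ H) R) := by
    refine le_trans ?_ hL
    have h1 : ∏ b ∈ s \ H, Real.exp (-(2 * (2 * p b))) ≤ ∏ b ∈ s \ H, (1 - 2 * p b) :=
      prod_le_prod (fun b _ => (Real.exp_pos _).le) fun b hb =>
        exp_le _ (by linarith [hp0 b]) (by linarith [hsmall b (hsub hb)])
    refine le_trans ?_ h1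
    rw [← Real.exp_sum]
    apply Real.exp_le_exp.2
    rw [sum_neg_distrib, neg_le_neg_iff]
    have h2 : ∑ b ∈ s \ H, 2 * (2 * p b) = 4 * ∑ b ∈ s \ H, p b := by
      rw [mul_sum]
      exact sum_congr rfl fun b _ => by ring
    rw [h2]
    have h3 : ∑ b ∈ s \ H, p b ≤ ∑ b ∈ s, p b :=
      sum_le_sum_of_subset_of_nonneg hsub fun b _ _ => (hp0 b).le
    linarith
  have hU := pr_union (Avoid (s \ H) R) (Avoid s R) H (fun b => Sat (R b)) (fun x hx => by
    by_cases h1 : ∃ b ∈ H, Sat (R b) x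
    · exact Or.inr h1
    · left
      intro b hb hS
      by_cases h2 : b ∈ H
      · exact h1 ⟨b, h2, hS⟩
      · exact hx b (mem_sdiff.2 ⟨hb, h2⟩) hS)
  have hS : ∑ b ∈ H, pr (Sat (R b)) = ∑ b ∈ H, p b :=
    sum_congr rfl fun b hb => hSAT n (R b) (hcon b (mem_filter.1 hb).1)
  rw [hS] at hU
  linarith

end Pool.Agent.Helper57.RK.GEN
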